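import Pool.Agent.TH537.LV.Main

/-!
# Rings of matrices that coincide with their derived Lie ring
-/

open Polynomial
open scoped Nat

universe u v

namespace Pool.Agent.Results.MP_8daa5c_al.MatrixSubrings

/-- Let `R` be a ring (a unit element is not required) that embeds in the ring of `n × n` matrices
over some commutative ring `C`, and let `R = [R,R]`.  Then the characteristic polynomial of each
element of `R` is `X ^ n`, the ring `R` is killed by a power of `n!` that depends only on `n`, and
`R = 0` if `n ≤ 3`. -/
theorem result (n : ℕ) : ∃ k : ℕ, ∀ (R : Type u) [NonUnitalRing R] (C : Type v) [CommRing C]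
    (f : R →ₙ+* Matrix (Fin n) (Fin n) C), Function.Injective f →
    AddSubgroup.closure {x : R | ∃ a b : R, x = a * b - b * a} = ⊤ →
    (∀ r : R, (f r).charpoly = X ^ n) ∧ (∀ r : R, (n ! ^ k) • r = 0) ∧
      (n ≤ 3 → ∀ r : R, r = 0) :=
  Pool.Agent.TH537.LV.main n

end Pool.Agent.Results.MP_8daa5c_al.MatrixSubrings
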