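import Pool.Agent.TH537.LV.C

/-!
# Nil rings of index three that coincide with their derived Lie ring
-/

universe u

namespace Pool.Agent.Results.MP_8daa5c_al.NilIndexThree

/-- A ring `R` (a unit element is not required) with `R = [R,R]` and `x³ = 0` for all `x` in `R`
is the zero ring. -/
theorem result (R : Type u) [NonUnitalRing R]
    (hR : AddSubgroup.closure {x : R | ∃ a b : R, x = a * b - b * a} = ⊤)
    (h : ∀ x : R, x * x * x = 0) : ∀ x : R, x = 0 :=
  Pool.Agent.TH537.LV.zero_of_cube hR h

end Pool.Agent.Results.MP_8daa5c_al.NilIndexThree
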